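import Pool.Agent.P8H39.TI.Stm4
import Pool.Agent.P8H59.TI.B1

/-!
# Project TI, part ETA
-/

set_option autoImplicit false
set_option linter.all false

namespace Pool.Agent.P8H73.TI

open Finset
open Pool.Agent.P8H39.TI
open Pool.Agent.P8H59.TI (BB gg lemW vand orth)

theorem BB_sum (ν κ q l : ℕ) (hν : l + κ + 1 ≤ ν) :
    ∑ e ∈ range (l + 1), BB ν κ q e * (l.choose e : ℝ) * ((ν - l).choose (ν - κ - e) : ℝ) =
      if q < l then 1 else 0 := by
  have h1 : ∀ e ∈ range (l + 1), BB ν κ q e * (l.choose e : ℝ) * ((ν - l).choose (ν - κ - e) : ℝ) =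
      ∑ u ∈ range l, gg ν κ q u * ((l.choose e : ℝ) * (e.choose (u + 1) : ℝ) *
        ((ν - l).choose (ν - κ - e) : ℝ)) := by
    intro e he
    rw [Finset.mem_range] at he
    unfold BB
    have h2 : range e ⊆ range l := by
      intro x hx
      rw [Finset.mem_range] at hx ⊢
      omega
    rw [Finset.sum_subset h2 (fun u _ hu => by
      rw [Finset.mem_range] at hu
      rw [Nat.choose_eq_zero_of_lt (by omega : e < u + 1)]
      simp), Finset.sum_mul, Finset.sum_mul]
    refine Finset.sum_congr rfl fun u _ => ?_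
    ring
  rw [Finset.sum_congr rfl h1, Finset.sum_comm]
  have h3 : ∀ u ∈ range l, ∑ e ∈ range (l + 1), gg ν κ q u * ((l.choose e : ℝ) *
      (e.choose (u + 1) : ℝ) * ((ν - l).choose (ν - κ - e) : ℝ)) =
      (-1 : ℝ) ^ (u + q) * (u.choose q : ℝ) * (l.choose (u + 1) : ℝ) := by
    intro u hu
    rw [Finset.mem_range] at hu
    rw [← Finset.mul_sum]
    have h4 := vand ν κ l (u + 1) (by omega) (by omega)
    have h5 : ∑ e ∈ range (l + 1), ((l.choose e : ℝ) * (e.choose (u + 1) : ℝ) *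
        ((ν - l).choose (ν - κ - e) : ℝ)) = (l.choose (u + 1) : ℝ) * ((ν - 1 - u).choose κ : ℝ) := by
      rw [show ν - 1 - u = ν - (u + 1) by omega]
      exact_mod_cast h4
    rw [h5]
    unfold gg
    have h6 : ((ν - 1 - u).choose κ : ℝ) ≠ 0 := by
      exact_mod_cast (Nat.choose_pos (show κ ≤ ν - 1 - u by omega)).ne'
    field_simp
  rw [Finset.sum_congr rfl h3, lemW]

theorem tight_unique {ν κ r : ℕ} {c : ℝ} {b b' : ℕ → ℝ} (h : r + κ ≤ ν) (hb : Tight ν κ r c b)
    (hb' : Tight ν κ r c b') : ∀ e, e ≤ r → b e = b' e := by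
  intro e
  induction e using Nat.strong_induction_on with
  | _ l ih =>
    intro hl
    have h1 := (hb l hl).trans (hb' l hl).symm
    rw [Finset.sum_range_succ, Finset.sum_range_succ] at h1
    have h2 : ∑ e ∈ range l, b e * (l.choose e : ℝ) * ((ν - l).choose (ν - κ - e) : ℝ) =
        ∑ e ∈ range l, b' e * (l.choose e : ℝ) * ((ν - l).choose (ν - κ - e) : ℝ) := by
      refine Finset.sum_congr rfl fun e he => ?_
      rw [Finset.mem_range] at he
      rw [ih e he (by omega)]
    rw [h2] at h1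
    have h3 := add_left_cancel h1
    rw [Nat.choose_self] at h3
    have h4 : ((ν - l).choose (ν - κ - l) : ℝ) ≠ 0 := by
      exact_mod_cast (Nat.choose_pos (show ν - κ - l ≤ ν - l by omega)).ne'
    have h5 := mul_right_cancel₀ h4 h3
    simpa using h5

/-- the degrees of the star -/
noncomputable def sl (ν κ l : ℕ) : ℝ := (((ν - l).choose (ν - κ) : ℕ) : ℝ)

/-- the increments of the correction -/
noncomputable def del (ν κ : ℕ) (c : ℝ) (q : ℕ) : ℝ := max (c - sl ν κ (q + 1)) 0 - max (c - sl ν κ q) 0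

/-- the solution of the equations -/
noncomputable def bs (ν κ r : ℕ) (c : ℝ) (e : ℕ) : ℝ :=
  (if e = 0 then 1 else 0) + ∑ q ∈ range r, del ν κ c q * BB ν κ q e

theorem sl_anti (ν κ q : ℕ) : sl ν κ (q + 1) ≤ sl ν κ q := by
  unfold sl
  exact_mod_cast Nat.choose_le_choose (ν - κ) (by omega : ν - (q + 1) ≤ ν - q)

theorem del_nonneg (ν κ : ℕ) (c : ℝ) (q : ℕ) : 0 ≤ del ν κ c q := by
  unfold del
  have := max_le_max (sub_le_sub_left (sl_anti ν κ q) c) (le_refl (0 : ℝ))
  linarith

theorem sl_nonneg (ν κ l : ℕ) : 0 ≤ sl ν κ l := Nat.cast_nonneg _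

theorem del_le (ν κ : ℕ) (c : ℝ) (q : ℕ) : del ν κ c q ≤ sl ν κ q := by
  unfold del
  have h1 := sl_anti ν κ q
  have h2 := sl_nonneg ν κ (q + 1)
  rcases le_total (c - sl ν κ (q + 1)) 0 with h | h
  · rw [max_eq_right h]
    have := le_max_right (c - sl ν κ q) 0
    have h3 := sl_nonneg ν κ q
    linarith
  · rw [max_eq_left h]
    have := le_max_left (c - sl ν κ q) 0
    linarith

theorem sl_anti' (ν κ : ℕ) {p q : ℕ} (h : p ≤ q) : sl ν κ q ≤ sl ν κ p := by
  unfold sl
  exact_mod_cast Nat.choose_le_choose (ν - κ) (by omega : ν - q ≤ ν - p)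

theorem del_zero {ν κ a q : ℕ} {c : ℝ} (hc : c ≤ sl ν κ (a + 1)) (hq : q ≤ a) : del ν κ c q = 0 := by
  unfold del
  rw [max_eq_right, max_eq_right, sub_zero]
  · have := sl_anti' ν κ (show q ≤ a + 1 by omega)
    linarith
  · have := sl_anti' ν κ (show q + 1 ≤ a + 1 by omega)
    linarith

theorem tight_bs {ν κ r : ℕ} {c : ℝ} (h : r + κ + 1 ≤ ν) (hc : c ≤ sl ν κ 0) :
    Tight ν κ r c (bs ν κ r c) := by
  intro l hl
  unfold bs
  have e1 : ∑ e ∈ range (l + 1), (((if e = 0 then 1 else 0) : ℝ) +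
      ∑ q ∈ range r, del ν κ c q * BB ν κ q e) * (l.choose e : ℝ) * ((ν - l).choose (ν - κ - e) : ℝ)
      = ∑ e ∈ range (l + 1), (((if e = 0 then 1 else 0) : ℝ) * (l.choose e : ℝ) *
        ((ν - l).choose (ν - κ - e) : ℝ) + ∑ q ∈ range r, del ν κ c q * (BB ν κ q e *
          (l.choose e : ℝ) * ((ν - l).choose (ν - κ - e) : ℝ))) := by
    refine Finset.sum_congr rfl fun e he => ?_
    rw [add_mul, add_mul, Finset.sum_mul, Finset.sum_mul]
    congr 1
    exact Finset.sum_congr rfl fun q _ => by ring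
  have e2 : ∑ e ∈ range (l + 1), ((if e = 0 then 1 else 0) : ℝ) * (l.choose e : ℝ) *
      ((ν - l).choose (ν - κ - e) : ℝ) = sl ν κ l := by
    rw [Finset.sum_eq_single 0]
    · unfold sl
      simp
    · intro e _ he
      rw [if_neg he]
      ring
    · intro h
      simp at h
  rw [e1, Finset.sum_add_distrib, e2, Finset.sum_comm]
  have e3 : ∀ q ∈ range r, ∑ e ∈ range (l + 1), del ν κ c q * (BB ν κ q e *
      (l.choose e : ℝ) * ((ν - l).choose (ν - κ - e) : ℝ)) = if q < l then del ν κ c q else 0 := by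
    intro q _
    rw [← Finset.mul_sum, BB_sum ν κ q l (by omega)]
    split_ifs <;> simp
  rw [Finset.sum_congr rfl e3, ← Finset.sum_filter]
  have e4 : (range r).filter (fun q => q < l) = range l := by
    ext q
    rw [mem_filter, mem_range, mem_range]
    omega
  rw [e4]
  unfold del
  rw [Finset.sum_range_sub (fun q => max (c - sl ν κ q) 0)]
  rw [max_eq_right (show c - sl ν κ 0 ≤ 0 by linarith), sub_zero]
  show sl ν κ l + max (c - sl ν κ l) 0 = max (sl ν κ l) c
  rcases le_total (sl ν κ l) c with h | h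
  · rw [max_eq_left (by linarith), max_eq_right h]
    ring
  · rw [max_eq_right (by linarith), max_eq_left h]
    ring

theorem neg_sub' {i e : ℕ} (h : e ≤ i) : (-1 : ℝ) ^ (i - e) = (-1) ^ (i + e) := by
  obtain ⟨d, rfl⟩ := Nat.exists_eq_add_of_le h
  rw [Nat.add_sub_cancel_left, show e + d + e = d + 2 * e by ring, pow_add, pow_mul]
  norm_num

theorem beta_BB (ν κ q i : ℕ) (hi : 1 ≤ i) :
    ∑ e ∈ range (i + 1), (-1 : ℝ) ^ (i - e) * (i.choose e : ℝ) * BB ν κ q e = gg ν κ q (i - 1) := by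
  have h1 : ∀ e ∈ range (i + 1), (-1 : ℝ) ^ (i - e) * (i.choose e : ℝ) * BB ν κ q e =
      ∑ u ∈ range i, ((-1 : ℝ) ^ (i + (u + 1)) * gg ν κ q u) *
        ((-1 : ℝ) ^ (e + (u + 1)) * (i.choose e : ℝ) * (e.choose (u + 1) : ℝ)) := by
    intro e he
    rw [Finset.mem_range] at he
    unfold BB
    have h2 : range e ⊆ range i := by
      intro x hx
      rw [Finset.mem_range] at hx ⊢
      omega
    rw [Finset.sum_subset h2 (fun u _ hu => by
      rw [Finset.mem_range] at hu
      rw [Nat.choose_eq_zero_of_lt (by omega : e < u + 1)]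
      simp), Finset.mul_sum]
    refine Finset.sum_congr rfl fun u _ => ?_
    rw [neg_sub' (by omega : e ≤ i)]
    have h3 : (-1 : ℝ) ^ (i + e) = (-1) ^ (i + (u + 1)) * (-1) ^ (e + (u + 1)) := by
      rw [← pow_add, show i + (u + 1) + (e + (u + 1)) = i + e + 2 * (u + 1) by ring, pow_add _ (i + e),
        pow_mul]
      norm_num
    rw [h3]
    ring
  rw [Finset.sum_congr rfl h1, Finset.sum_comm]
  have h2 : ∀ u ∈ range i, ∑ e ∈ range (i + 1), ((-1 : ℝ) ^ (i + (u + 1)) * gg ν κ q u) *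
        ((-1 : ℝ) ^ (e + (u + 1)) * (i.choose e : ℝ) * (e.choose (u + 1) : ℝ)) =
      if u = i - 1 then gg ν κ q (i - 1) else 0 := by
    intro u hu
    rw [Finset.mem_range] at hu
    rw [← Finset.mul_sum, orth]
    by_cases h : u = i - 1
    · subst h
      rw [if_pos (by omega), if_pos rfl, mul_one]
      rw [show i + (i - 1 + 1) = 2 * i by omega, pow_mul]
      norm_num
    · rw [if_neg (by omega), if_neg h, mul_zero]
  rw [Finset.sum_congr rfl h2, Finset.sum_ite_eq' (range i) (i - 1) (fun _ => gg ν κ q (i - 1)),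
    if_pos (Finset.mem_range.2 (by omega))]

theorem beta_bs (ν κ r i : ℕ) (c : ℝ) (hi : 1 ≤ i) :
    ∑ e ∈ range (i + 1), (-1 : ℝ) ^ (i - e) * (i.choose e : ℝ) * bs ν κ r c e =
      (-1 : ℝ) ^ i + ∑ q ∈ range r, del ν κ c q * gg ν κ q (i - 1) := by
  unfold bs
  have h1 : ∀ e ∈ range (i + 1), (-1 : ℝ) ^ (i - e) * (i.choose e : ℝ) *
      (((if e = 0 then 1 else 0) : ℝ) + ∑ q ∈ range r, del ν κ c q * BB ν κ q e) =
      (-1 : ℝ) ^ (i - e) * (i.choose e : ℝ) * ((if e = 0 then 1 else 0) : ℝ) +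
        ∑ q ∈ range r, del ν κ c q * ((-1 : ℝ) ^ (i - e) * (i.choose e : ℝ) * BB ν κ q e) := by
    intro e _
    rw [mul_add, Finset.mul_sum]
    congr 1
    exact Finset.sum_congr rfl fun q _ => by ring
  rw [Finset.sum_congr rfl h1, Finset.sum_add_distrib, Finset.sum_comm]
  congr 1
  · rw [Finset.sum_eq_single 0]
    · simp
    · intro e _ he
      rw [if_neg he, mul_zero]
    · intro h
      simp at h
  · refine Finset.sum_congr rfl fun q _ => ?_
    rw [← Finset.mul_sum, beta_BB ν κ q i hi]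

/-- finite differences of binomial coefficients -/
theorem fdC (M : ℕ) : ∀ X Y : ℕ, M ≤ Y → M ≤ X →
    ∑ u ∈ range (M + 1), (-1 : ℝ) ^ u * (M.choose u : ℝ) * ((X - u).choose Y : ℝ) =
      ((X - M).choose (Y - M) : ℝ) := by
  induction M with
  | zero => intro X Y _ _; simp
  | succ a ih =>
    intro X Y hY hX
    have h1 : ∑ u ∈ range (a + 1 + 1), (-1 : ℝ) ^ u * ((a + 1).choose u : ℝ) * ((X - u).choose Y : ℝ) =
        ∑ u ∈ range (a + 1), (-1 : ℝ) ^ u * (a.choose u : ℝ) * ((X - u).choose Y : ℝ) -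
        ∑ u ∈ range (a + 1), (-1 : ℝ) ^ u * (a.choose u : ℝ) * ((X - 1 - u).choose Y : ℝ) := by
      rw [Finset.sum_range_succ']
      have h2 : ∀ u ∈ range (a + 1), (-1 : ℝ) ^ (u + 1) * ((a + 1).choose (u + 1) : ℝ) *
          ((X - (u + 1)).choose Y : ℝ) =
          (-1 : ℝ) ^ (u + 1) * (a.choose (u + 1) : ℝ) * ((X - (u + 1)).choose Y : ℝ) -
          (-1 : ℝ) ^ u * (a.choose u : ℝ) * ((X - 1 - u).choose Y : ℝ) := by
        intro u _
        rw [Nat.choose_succ_succ, show X - 1 - u = X - (u + 1) by omega]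
        push_cast
        rw [pow_succ]
        ring
      rw [Finset.sum_congr rfl h2, Finset.sum_sub_distrib]
      have e1 := Finset.sum_range_succ
        (fun u : ℕ => (-1 : ℝ) ^ u * (a.choose u : ℝ) * ((X - u).choose Y : ℝ)) (a + 1)
      have e2 := Finset.sum_range_succ'
        (fun u : ℕ => (-1 : ℝ) ^ u * (a.choose u : ℝ) * ((X - u).choose Y : ℝ)) (a + 1)
      rw [e1] at e2
      simp only [Nat.choose_eq_zero_of_lt (by omega : a < a + 1), Nat.cast_zero, mul_zero, zero_mul,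
        add_zero, pow_zero, Nat.choose_zero_right, Nat.cast_one, one_mul, Nat.sub_zero] at e2
      rw [e2]
      simp
      ring
    rw [h1, ih X Y (by omega) (by omega), ih (X - 1) Y (by omega) (by omega)]
    obtain ⟨Z, hZ⟩ : ∃ Z, X = Z + a + 1 := ⟨X - a - 1, by omega⟩
    obtain ⟨W, hW⟩ : ∃ W, Y = W + a + 1 := ⟨Y - a - 1, by omega⟩
    subst hZ hW
    rw [show Z + a + 1 - a = Z + 1 by omega, show W + a + 1 - a = W + 1 by omega,
      show Z + a + 1 - 1 - a = Z by omega, show Z + a + 1 - (a + 1) = Z by omega,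
      show W + a + 1 - (a + 1) = W by omega, Nat.choose_succ_succ]
    push_cast
    ring

theorem quot (N κ m : ℕ) (h1 : m ≤ κ) (h2 : κ ≤ N) :
    ((N - m).choose (κ - m) : ℝ) / (N.choose κ : ℝ) = (κ.descFactorial m : ℝ) / (N.descFactorial m : ℝ) := by
  have h3 := Nat.choose_mul (n := N) (k := κ) (s := m) h1
  have h4 := Nat.descFactorial_eq_factorial_mul_choose κ m
  have h5 := Nat.descFactorial_eq_factorial_mul_choose N m
  have h6 : (N.choose κ : ℝ) ≠ 0 := by exact_mod_cast (Nat.choose_pos h2).ne'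
  have h7 : (N.descFactorial m : ℝ) ≠ 0 := by
    have : 0 < N.descFactorial m := Nat.descFactorial_pos.2 (by omega)
    exact_mod_cast this.ne'
  rw [div_eq_div_iff h6 h7]
  have h8 : (N - m).choose (κ - m) * N.descFactorial m = κ.descFactorial m * N.choose κ := by
    rw [h4, h5]
    calc (N - m).choose (κ - m) * (m.factorial * N.choose m) =
        m.factorial * (N.choose m * (N - m).choose (κ - m)) := by ring
      _ = m.factorial * (N.choose κ * κ.choose m) := by rw [h3]
      _ = m.factorial * κ.choose m * N.choose κ := by ring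
  exact_mod_cast h8

theorem t_ETA (hXL : S_XL) : S_ETA := by
  intro n k t a m c b ht hm hma hak hn hc0 hc hb
  obtain ⟨κ, rfl⟩ : ∃ κ, k = t + κ := ⟨k - t, by omega⟩
  obtain ⟨M, rfl⟩ : ∃ M, a = m + M := ⟨a - m, by omega⟩
  have hκ : t + κ - t = κ := by omega
  rw [hκ] at hn hb ⊢
  have hn' : (t + (m + M)) * κ ≥ κ + (t + (m + M)) := by nlinarith
  obtain ⟨ν, rfl⟩ : ∃ ν, n = t + ν := ⟨n - t, by omega⟩
  have hν0 : t + ν - t = ν := by omega
  rw [hν0] at hb hc ⊢
  have hν : κ + (t + (m + M)) + κ + (t + (m + M)) + 1 ≤ ν := by nlinarith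
  rw [show t + ν - (t + κ) = ν - κ by omega] at hc
  have hcs : c ≤ sl ν κ (m + M + 1) := hc
  set r := t + (m + M) with hr
  have hsol := tight_unique (by omega) hb (tight_bs (ν := ν) (κ := κ) (r := r) (c := c) (by omega)
    (hcs.trans (sl_anti' ν κ (Nat.zero_le _))))
  have hbeta : ∀ i, 1 ≤ i → i ≤ r →
      ∑ e ∈ range (i + 1), (-1 : ℝ) ^ (i - e) * (i.choose e : ℝ) * b e =
        (-1 : ℝ) ^ i + ∑ q ∈ range r, del ν κ c q * gg ν κ q (i - 1) := by
    intro i h1 h2
    rw [← beta_bs ν κ r i c h1]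
    refine Finset.sum_congr rfl fun e he => ?_
    rw [Finset.mem_range] at he
    rw [hsol e (by omega)]
  -- the sum over `i = t + m + u`
  have h1 : eta (t + ν) (t + κ) r b (t + m) = ∑ u ∈ range (M + 1),
      ((-1 : ℝ) ^ (t + m + u) + ∑ q ∈ range r, del ν κ c q * gg ν κ q (t + m + u - 1)) *
        ((t + ν - (t + m + u) - (t + m)).choose (κ - m) : ℝ) * (M.choose u : ℝ) := by
    unfold eta
    rw [show r + 1 = (t + m) + (M + 1) by omega, Finset.sum_range_add]
    rw [Finset.sum_eq_zero (fun i hi => by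
      rw [Finset.mem_range] at hi
      rw [Nat.choose_eq_zero_of_lt (by omega : r - (t + m) < r - i)]
      simp), zero_add]
    refine Finset.sum_congr rfl fun u hu => ?_
    rw [Finset.mem_range] at hu
    rw [hbeta (t + m + u) (by omega) (by omega)]
    rw [show t + κ - (t + m) = κ - m by omega, show r - (t + m) = M by omega,
      show r - (t + m + u) = M - u by omega, Nat.choose_symm (by omega : u ≤ M)]
  -- the two parts
  have h2 : ∑ u ∈ range (M + 1), (-1 : ℝ) ^ (t + m + u) *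
        ((t + ν - (t + m + u) - (t + m)).choose (κ - m) : ℝ) * (M.choose u : ℝ) =
      (-1 : ℝ) ^ (t + m) * ((t + ν - r - (t + m)).choose (t + κ - r) : ℝ) := by
    have h3 := fdC M (t + ν - (t + m) - (t + m)) (κ - m) (by omega) (by omega)
    rw [show t + ν - r - (t + m) = t + ν - (t + m) - (t + m) - M by omega,
      show t + κ - r = κ - m - M by omega, ← h3, Finset.mul_sum]
    refine Finset.sum_congr rfl fun u hu => ?_
    rw [Finset.mem_range] at hu
    rw [show t + ν - (t + m + u) - (t + m) = t + ν - (t + m) - (t + m) - u by omega, pow_add _ (t + m)]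
    ring
  have h3 : ∑ u ∈ range (M + 1), (∑ q ∈ range r, del ν κ c q * gg ν κ q (t + m + u - 1)) *
        ((t + ν - (t + m + u) - (t + m)).choose (κ - m) : ℝ) * (M.choose u : ℝ) =
      ∑ q ∈ range r, del ν κ c q * ((κ.descFactorial m : ℝ) * ((-1 : ℝ) ^ (t + m - 1 + q + M) *
        ∑ u ∈ range (M + 1), (-1 : ℝ) ^ (M - u) * (M.choose u : ℝ) * ((t + m - 1 + u).choose q : ℝ) /
          ((ν - (t + m) - u).descFactorial m : ℝ))) := by
    have e1 : ∀ u ∈ range (M + 1), (∑ q ∈ range r, del ν κ c q * gg ν κ q (t + m + u - 1)) *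
        ((t + ν - (t + m + u) - (t + m)).choose (κ - m) : ℝ) * (M.choose u : ℝ) =
        ∑ q ∈ range r, del ν κ c q * ((κ.descFactorial m : ℝ) * ((-1 : ℝ) ^ (t + m - 1 + q + M) *
          ((-1 : ℝ) ^ (M - u) * (M.choose u : ℝ) * ((t + m - 1 + u).choose q : ℝ) /
            ((ν - (t + m) - u).descFactorial m : ℝ)))) := by
      intro u hu
      rw [Finset.mem_range] at hu
      rw [Finset.sum_mul, Finset.sum_mul]
      refine Finset.sum_congr rfl fun q _ => ?_
      unfold gg
      have e2 := quot (ν - (t + m) - u) κ m (by omega) (by omega)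
      rw [show ν - 1 - (t + m + u - 1) = ν - (t + m) - u by omega,
        show t + ν - (t + m + u) - (t + m) = ν - (t + m) - u - m by omega,
        show t + m + u - 1 = t + m - 1 + u by omega]
      have e3 : (-1 : ℝ) ^ (t + m - 1 + u + q) = (-1) ^ (t + m - 1 + q + M) * (-1) ^ (M - u) := by
        rw [neg_sub' (by omega : u ≤ M), ← pow_add,
          show t + m - 1 + q + M + (M + u) = (t + m - 1 + u + q) + 2 * M by ring, pow_add _ (t + m - 1 + u + q),
          pow_mul]
        norm_num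
      rw [e3]
      calc del ν κ c q * ((-1 : ℝ) ^ (t + m - 1 + q + M) * (-1) ^ (M - u) * ((t + m - 1 + u).choose q : ℝ) /
            ((ν - (t + m) - u).choose κ : ℝ)) * ((ν - (t + m) - u - m).choose (κ - m) : ℝ) * (M.choose u : ℝ)
          = del ν κ c q * ((-1 : ℝ) ^ (t + m - 1 + q + M) * (-1) ^ (M - u) * ((t + m - 1 + u).choose q : ℝ)) *
            (((ν - (t + m) - u - m).choose (κ - m) : ℝ) / ((ν - (t + m) - u).choose κ : ℝ)) *
              (M.choose u : ℝ) := by ring
        _ = _ := by rw [e2]; ring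
    rw [Finset.sum_congr rfl e1, Finset.sum_comm]
    refine Finset.sum_congr rfl fun q _ => ?_
    rw [← Finset.mul_sum, ← Finset.mul_sum, ← Finset.mul_sum]
  have h4 : eta (t + ν) (t + κ) r b (t + m) =
      (-1 : ℝ) ^ (t + m) * ((t + ν - r - (t + m)).choose (t + κ - r) : ℝ) +
      ∑ q ∈ range r, del ν κ c q * ((κ.descFactorial m : ℝ) * ((-1 : ℝ) ^ (t + m - 1 + q + M) *
        ∑ u ∈ range (M + 1), (-1 : ℝ) ^ (M - u) * (M.choose u : ℝ) * ((t + m - 1 + u).choose q : ℝ) /
          ((ν - (t + m) - u).descFactorial m : ℝ))) := by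
    rw [h1, ← h2, ← h3, ← Finset.sum_add_distrib]
    refine Finset.sum_congr rfl fun u _ => ?_
    ring
  rw [h4]
  refine (abs_add_le _ _).trans (add_le_add ?_ ?_)
  · rw [abs_mul, abs_pow, abs_neg, abs_one, one_pow, one_mul, Nat.abs_cast]
  refine (Finset.abs_sum_le_sum_abs _ _).trans ?_
  unfold corr
  rw [show m + M - m = M by omega]
  have hsub : Ico (m + M + 1) r ⊆ range r := by
    intro x hx
    rw [Finset.mem_Ico] at hx
    rw [Finset.mem_range]
    omega
  rw [← Finset.sum_subset hsub (fun q _ hq => by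
    have hq2 : q ∈ range r := by assumption
    rw [Finset.mem_range] at hq2
    rw [Finset.mem_Ico] at hq
    rw [del_zero hcs (by omega), zero_mul, abs_zero])]
  refine Finset.sum_le_sum fun q hq => ?_
  rw [Finset.mem_Ico] at hq
  have e5 := hXL M q (t + m) m (ν - (t + m)) (by omega) hm (by omega)
  rw [e5]
  have e6 : ∀ v ∈ range (M + 1), (M.choose v : ℝ) * (m.ascFactorial v : ℝ) /
      ((ν - (t + m)).descFactorial (m + v) : ℝ) *
        (if M - v ≤ q then ((t + m - 1 + v).choose (q - (M - v)) : ℝ) else 0) =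
      (M.choose v : ℝ) * (m.ascFactorial v : ℝ) /
      ((ν - t - m).descFactorial (m + v) : ℝ) * ((t + m - 1 + v).choose (q - M + v) : ℝ) := by
    intro v hv
    rw [Finset.mem_range] at hv
    rw [if_pos (by omega), show q - (M - v) = q - M + v by omega, show ν - (t + m) = ν - t - m by omega]
  rw [Finset.sum_congr rfl e6]
  have e7 : 0 ≤ ∑ v ∈ range (M + 1), (M.choose v : ℝ) * (m.ascFactorial v : ℝ) /
      ((ν - t - m).descFactorial (m + v) : ℝ) * ((t + m - 1 + v).choose (q - M + v) : ℝ) :=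
    Finset.sum_nonneg fun v _ => by positivity
  rw [abs_mul, abs_mul, abs_mul, abs_pow, abs_neg, abs_one, one_pow, one_mul, abs_of_nonneg e7,
    abs_of_nonneg (del_nonneg ν κ c q), Nat.abs_cast]
  rw [← mul_assoc]
  have e8 := del_le ν κ c q
  unfold sl at e8
  gcongr

end Pool.Agent.P8H73.TI
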