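import Pool.Agent.P8H39.TI.Stm4

/-!
# Project TI, part LAM
-/

set_option autoImplicit false
set_option linter.all false

namespace Pool.Agent.P8H73.TI

open Finset
open Pool.Agent.P8H39.TI

theorem t_LAM (hETA : S_ETA) (hXB : S_XB) : S_LAM := by
  intro n k t a m c b ht hm hma hak hn hc0 hc hb
  have hE := hETA n k t a m c b ht hm hma hak hn hc0 hc hb
  obtain ⟨κ, rfl⟩ : ∃ κ, k = t + κ := ⟨k - t, by omega⟩
  have hκ : t + κ - t = κ := by omega
  rw [hκ] at hn hb hE ⊢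
  obtain ⟨ν, rfl⟩ : ∃ ν, n = t + ν := ⟨n - t, by omega⟩
  have hν0 : t + ν - t = ν := by omega
  rw [hν0] at hb hc hE ⊢
  have hak' : a < κ := by omega
  have hνb : 8 * (t + a) * κ ≤ ν := by omega
  have h16 : 16 * κ ≤ ν := by
    have : 8 * 2 * κ ≤ 8 * (t + a) * κ := by
      apply Nat.mul_le_mul_right
      omega
    omega
  have hνr : κ + t + a + a + t + m ≤ ν := by nlinarith
  obtain ⟨hx1, hx2⟩ := hXB ν κ t a m ht hm hma hak' hνb
  rw [show t + ν - (t + a) - (t + m) = ν - a - t - m by omega, show t + κ - (t + a) = κ - a by omega] at hE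
  have hlam : lamb (t + ν) (t + κ) (t + a) b (t + m) =
      (eta (t + ν) (t + κ) (t + a) b (t + m)) ^ 2 * ((κ - m).choose (a - m) : ℝ) /
        ((ν - a - t - m).choose (κ - a) : ℝ) := by
    unfold lamb eta
    rw [show t + ν - (t + a) - (t + m) = ν - a - t - m by omega,
      show t + κ - (t + a) = κ - a by omega, show t + a - (t + m) = a - m by omega]
    rw [show t + κ - (t + m) = κ - m by omega]
  rw [hlam]
  obtain ⟨e, he⟩ : ∃ e : ℝ, e = eta (t + ν) (t + κ) (t + a) b (t + m) := ⟨_, rfl⟩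
  rw [← he] at hE ⊢
  have hEpos : (0 : ℝ) < ((ν - a - t - m).choose (κ - a) : ℝ) := by
    exact_mod_cast Nat.choose_pos (by omega)
  obtain ⟨E, hEd⟩ : ∃ E : ℝ, E = ((ν - a - t - m).choose (κ - a) : ℝ) := ⟨_, rfl⟩
  rw [← hEd] at hE hEpos hx1 hx2 ⊢
  obtain ⟨s, hs⟩ : ∃ s : ℝ, s = ((ν - a).choose (κ - a) : ℝ) := ⟨_, rfl⟩
  rw [← hs] at hx2
  have hspos : 0 < s := lt_of_lt_of_le hEpos hx2
  have h1 : |e| ≤ 6 / 5 * E := by linarith
  have h2 : e ^ 2 ≤ 36 / 25 * E ^ 2 := by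
    have h3 : |e| ^ 2 ≤ (6 / 5 * E) ^ 2 := pow_le_pow_left₀ (abs_nonneg _) h1 2
    rw [sq_abs] at h3
    calc e ^ 2 ≤ (6 / 5 * E) ^ 2 := h3
      _ = 36 / 25 * E ^ 2 := by ring
  have h3 : ((κ - m).choose (a - m) : ℝ) ≤ (κ.choose a : ℝ) := by
    have e1 : (κ - m).choose (a - m) = (κ - m).choose (κ - a) := by
      rw [← Nat.choose_symm (by omega : a - m ≤ κ - m)]
      congr 1
      omega
    have e2 : κ.choose a = κ.choose (κ - a) := (Nat.choose_symm (by omega)).symm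
    rw [e1, e2]
    exact_mod_cast Nat.choose_le_choose (κ - a) (by omega : κ - m ≤ κ)
  have h4 : (κ.choose a : ℝ) * (ν.choose κ : ℝ) = (ν.choose a : ℝ) * s := by
    have e1 := Nat.choose_mul (n := ν) (k := κ) (s := a) (by omega)
    rw [hs]
    have e2 : (ν.choose κ : ℝ) * (κ.choose a : ℝ) = (ν.choose a : ℝ) * ((ν - a).choose (κ - a) : ℝ) := by
      exact_mod_cast e1
    linarith
  have h5 : ((ν - a).choose (ν - κ) : ℝ) = s := by
    rw [hs, ← Nat.choose_symm (by omega : κ - a ≤ ν - a), show ν - a - (κ - a) = ν - κ by omega]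
  have h6 : ((ν - (a + 1)).choose (ν - κ) : ℝ) ≤ s / 16 := by
    have e1 : (ν - (a + 1)).choose (ν - κ) = (ν - (a + 1)).choose (κ - (a + 1)) := by
      rw [← Nat.choose_symm (by omega : κ - (a + 1) ≤ ν - (a + 1)),
        show ν - (a + 1) - (κ - (a + 1)) = ν - κ by omega]
    have e2 := Nat.add_one_mul_choose_eq (ν - (a + 1)) (κ - (a + 1))
    rw [show ν - (a + 1) + 1 = ν - a by omega, show κ - (a + 1) + 1 = κ - a by omega] at e2
    have e3 : (((ν - a : ℕ) : ℝ)) * ((ν - (a + 1)).choose (κ - (a + 1)) : ℝ) =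
        s * ((κ - a : ℕ) : ℝ) := by
      rw [hs]
      exact_mod_cast e2
    have e4 : (16 : ℝ) * ((κ - a : ℕ) : ℝ) ≤ ((ν - a : ℕ) : ℝ) := by
      exact_mod_cast (by omega : 16 * (κ - a) ≤ ν - a)
    have e5 : (0 : ℝ) < ((κ - a : ℕ) : ℝ) := by exact_mod_cast (by omega : 0 < κ - a)
    rw [e1, le_div_iff₀ (by norm_num)]
    have e6 : (0 : ℝ) ≤ ((ν - (a + 1)).choose (κ - (a + 1)) : ℝ) := Nat.cast_nonneg _
    have e7 : (16 : ℝ) * ((κ - a : ℕ) : ℝ) * ((ν - (a + 1)).choose (κ - (a + 1)) : ℝ) ≤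
        s * ((κ - a : ℕ) : ℝ) := by
      rw [← e3]
      exact mul_le_mul_of_nonneg_right e4 e6
    have e8 : ((ν - (a + 1)).choose (κ - (a + 1)) : ℝ) * 16 * ((κ - a : ℕ) : ℝ) ≤
        s * ((κ - a : ℕ) : ℝ) := by linarith
    exact le_of_mul_le_mul_right e8 e5
  rw [show t + ν - (t + κ) = ν - κ by omega, h5]
  have h7 : 15 / 16 * s ≤ s - ((ν - (a + 1)).choose (ν - κ) : ℝ) := by linarith
  have h8 : (15 / 16 * s) ^ 2 ≤ (s - ((ν - (a + 1)).choose (ν - κ) : ℝ)) ^ 2 :=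
    pow_le_pow_left₀ (by positivity) h7 2
  have hνa : (0 : ℝ) ≤ (ν.choose a : ℝ) := Nat.cast_nonneg _
  calc e ^ 2 * ((κ - m).choose (a - m) : ℝ) / E * (ν.choose κ : ℝ)
      ≤ 36 / 25 * E ^ 2 * (κ.choose a : ℝ) / E * (ν.choose κ : ℝ) := by gcongr
    _ = 36 / 25 * E * ((κ.choose a : ℝ) * (ν.choose κ : ℝ)) := by
        field_simp
    _ = 36 / 25 * E * ((ν.choose a : ℝ) * s) := by rw [h4]
    _ ≤ 36 / 25 * s * ((ν.choose a : ℝ) * s) := by gcongr
    _ ≤ 7 / 4 * ((ν.choose a : ℝ) * (15 / 16 * s) ^ 2) := by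
        have : 0 ≤ (ν.choose a : ℝ) * s ^ 2 := by positivity
        nlinarith
    _ ≤ 7 / 4 * ((ν.choose a : ℝ) * (s - ((ν - (a + 1)).choose (ν - κ) : ℝ)) ^ 2) := by gcongr

end Pool.Agent.P8H73.TI
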